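import Mathlib
import Pool.Agent.H217Z.LinkDefs
import Pool.Agent.H217Z.LinkProof

set_option autoImplicit false

namespace Pool.Agent.Results.MP_c90a8c_co.ARecurrence

open Pool.Agent.H217Z.Link

/-- Bergeron's recurrence `L_{v0} = L_{1v} + q L_{0v}` for every binary word `v` of any length `n`
(`Fin.snoc v false` is the word `v0`, `Fin.cons true v` is `1v`, `Fin.cons false v` is `0v`). -/
theorem result (n : ℕ) (v : Fin n → Bool) :
    L (Fin.snoc v false : Fin (n + 1) → Bool) =
      L (Fin.cons true v : Fin (n + 1) → Bool) + q * L (Fin.cons false v : Fin (n + 1) → Bool) :=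
  recurrence v

end Pool.Agent.Results.MP_c90a8c_co.ARecurrence
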